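import Pool.Agent.Cry7.Main

/-! Crystallographic groups of seven-space with linear part dense in SO(4,3):
no element has small displacement. -/

set_option autoImplicit false

namespace Pool.Agent.Results.MP_0cb718_al.SmallDisplacement

/-- the Gram matrix of a quadratic form of signature (4,3) -/
def form : Matrix (Fin 7) (Fin 7) ℝ :=
  Matrix.diagonal (fun i : Fin 7 => if (i : ℕ) < 4 then (1 : ℝ) else -1)

/-- the matrix of the linear part of an affine bijection -/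
def linPart (g : (Fin 7 → ℝ) ≃ᵃ[ℝ] (Fin 7 → ℝ)) : Matrix (Fin 7) (Fin 7) ℝ :=
  LinearMap.toMatrix' g.linear.toLinearMap

/-- membership in SO(4,3) -/
def IsSO (A : Matrix (Fin 7) (Fin 7) ℝ) : Prop :=
  A.det = 1 ∧ A.transpose * form * A = form

/-- the group acts properly discontinuously and cocompactly -/
def Crystallographic (Γ : Subgroup ((Fin 7 → ℝ) ≃ᵃ[ℝ] (Fin 7 → ℝ))) : Prop :=
  (∀ K L : Set (Fin 7 → ℝ), IsCompact K → IsCompact L →
    {g : (Fin 7 → ℝ) ≃ᵃ[ℝ] (Fin 7 → ℝ) | g ∈ Γ ∧ ((⇑g) '' K ∩ L).Nonempty}.Finite) ∧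
  (∃ K : Set (Fin 7 → ℝ), IsCompact K ∧ ∀ x : Fin 7 → ℝ, ∃ g ∈ Γ, x ∈ (⇑g) '' K)

/-- all linear parts lie in SO(4,3), and every polynomial in the matrix entries that vanishes
on them vanishes on SO(4,3) -/
def LinearPartDense (Γ : Subgroup ((Fin 7 → ℝ) ≃ᵃ[ℝ] (Fin 7 → ℝ))) : Prop :=
  (∀ g ∈ Γ, IsSO (linPart g)) ∧
  ∀ p : MvPolynomial (Fin 7 × Fin 7) ℝ,
    (∀ g ∈ Γ, MvPolynomial.eval (fun ij : Fin 7 × Fin 7 => linPart g ij.1 ij.2) p = 0) →
    ∀ A : Matrix (Fin 7) (Fin 7) ℝ, IsSO A →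
      MvPolynomial.eval (fun ij : Fin 7 × Fin 7 => A ij.1 ij.2) p = 0

/-- The linear part `A` of every nontrivial element of a crystallographic group of seven-space
with linear part dense in SO(4,3) satisfies `4 ≤ rank (A - 1)` and `3 ≤ rank (A + 1)`. -/
theorem result (Γ : Subgroup ((Fin 7 → ℝ) ≃ᵃ[ℝ] (Fin 7 → ℝ))) (hc : Crystallographic Γ)
    (hd : LinearPartDense Γ) (γ : (Fin 7 → ℝ) ≃ᵃ[ℝ] (Fin 7 → ℝ)) (hγ : γ ∈ Γ) (hne : γ ≠ 1) :
    4 ≤ (linPart γ - 1).rank ∧ 3 ≤ (linPart γ + 1).rank :=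
  Pool.Agent.Cry7.bounds Γ hc.1 hc.2 hd.1
    (Pool.Agent.Cry7.dense_of Γ fun p hp A h1 h2 => hd.2 p hp A ⟨h1, h2⟩) γ hγ hne

end Pool.Agent.Results.MP_0cb718_al.SmallDisplacement
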